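import Mathlib
import Pool.Agent.W395.SN.CMIso

/-!
# Transport of Hilbert functions and associated graded rings along isomorphisms
-/

set_option autoImplicit false

namespace Pool.Agent.Y830.SC

open Pool.Agent.W442.SV Pool.Agent.W442.SN

section

variable {R S : Type} [CommRing R] [CommRing S]

lemma mem_map_pow (e : R ≃+* S) (m : Ideal R) (i : ℕ) (x : R) :
    e x ∈ (m.map (e : R →+* S)) ^ i ↔ x ∈ m ^ i := by
  rw [← Ideal.map_pow]
  constructor
  · intro h
    obtain ⟨y, hy, hxy⟩ := (Ideal.mem_map_of_equiv e _).1 h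
    rwa [← e.injective hxy]
  · intro h
    exact Ideal.mem_map_of_mem (e : R →+* S) h

/-- The isomorphism of Rees algebras. -/
noncomputable def rees (e : R ≃+* S) (m : Ideal R) :
    ↥(reesAlgebra m) ≃+* ↥(reesAlgebra (m.map (e : R →+* S))) where
  toFun x := ⟨Polynomial.mapEquiv e x.1, by
    rw [mem_reesAlgebra_iff]
    intro i
    have h := (mem_reesAlgebra_iff m x.1).1 x.2 i
    rw [Polynomial.mapEquiv_apply, Polynomial.coeff_map]
    exact (mem_map_pow e m i _).2 h⟩
  invFun y := ⟨(Polynomial.mapEquiv e).symm y.1, by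
    rw [mem_reesAlgebra_iff]
    intro i
    have h := (mem_reesAlgebra_iff _ y.1).1 y.2 i
    rw [← mem_map_pow e m i]
    have h2 : e (((Polynomial.mapEquiv e).symm y.1).coeff i) = y.1.coeff i := by
      have h3 : Polynomial.mapEquiv e ((Polynomial.mapEquiv e).symm y.1) = y.1 :=
        (Polynomial.mapEquiv e).apply_symm_apply y.1
      rw [← congrArg (fun p => Polynomial.coeff p i) h3]
      rw [Polynomial.mapEquiv_apply, Polynomial.coeff_map]
      rfl
    rw [h2]
    exact h⟩
  left_inv x := by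
    apply Subtype.ext
    exact (Polynomial.mapEquiv e).symm_apply_apply x.1
  right_inv y := by
    apply Subtype.ext
    exact (Polynomial.mapEquiv e).apply_symm_apply y.1
  map_mul' x y := by
    apply Subtype.ext
    exact map_mul (Polynomial.mapEquiv e) x.1 y.1
  map_add' x y := by
    apply Subtype.ext
    exact map_add (Polynomial.mapEquiv e) x.1 y.1

lemma rees_algebraMap (e : R ≃+* S) (m : Ideal R) (r : R) :
    rees e m (algebraMap R _ r) = algebraMap S _ (e r) := by
  apply Subtype.ext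
  show Polynomial.mapEquiv e (Polynomial.C r) = Polynomial.C (e r)
  rw [Polynomial.mapEquiv_apply, Polynomial.map_C]
  rfl

/-- The isomorphism of associated graded rings. -/
noncomputable def grEquiv (e : R ≃+* S) (m : Ideal R) :
    GrRing m ≃+* GrRing (m.map (e : R →+* S)) :=
  Ideal.quotientEquiv _ _ (rees e m) (by
    rw [Ideal.map_map, Ideal.map_map]
    congr 1
    refine RingHom.ext fun r => ?_
    exact (rees_algebraMap e m r).symm)

lemma isCM_congr (e : R ≃+* S) (m : Ideal R) (m' : Ideal S) (h : m.map (e : R →+* S) = m') :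
    IsCM (GrRing m) ↔ IsCM (GrRing m') := by
  subst h
  exact ⟨Pool.Agent.W395.SN.CMIso.main _ _ (grEquiv e m),
    Pool.Agent.W395.SN.CMIso.main _ _ (grEquiv e m).symm⟩

end

section

variable {R S : Type} [CommRing R] [CommRing S] [Algebra ℂ R] [Algebra ℂ S]

/-- the map on the powers of the ideal -/
noncomputable def powMap (e : R ≃ₐ[ℂ] S) (m : Ideal R) (i : ℕ) :
    ↥(m ^ i) →ₛₗ[((e : R ≃+* S) : R →+* S)]
      Layer (m.map ((e : R ≃+* S) : R →+* S)) i where
  toFun x := Submodule.Quotient.mk ⟨e x.1, (mem_map_pow (e : R ≃+* S) m i x.1).2 x.2⟩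
  map_add' x y := by
    rw [← Submodule.Quotient.mk_add]
    congr 1
    apply Subtype.ext
    exact map_add e x.1 y.1
  map_smul' c x := by
    rw [← Submodule.Quotient.mk_smul]
    congr 1
    apply Subtype.ext
    exact map_mul e c x.1

lemma powMap_eq_zero (e : R ≃ₐ[ℂ] S) (m : Ideal R) (i : ℕ) (x : ↥(m ^ i)) :
    powMap e m i x = 0 ↔ x ∈ nextPow m i := by
  show Submodule.Quotient.mk _ = 0 ↔ _
  rw [Submodule.Quotient.mk_eq_zero]
  show e x.1 ∈ (m.map ((e : R ≃+* S) : R →+* S)) ^ (i + 1) ↔ x.1 ∈ m ^ (i + 1)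
  exact mem_map_pow (e : R ≃+* S) m (i + 1) x.1

/-- the map on the layers -/
noncomputable def layMap (e : R ≃ₐ[ℂ] S) (m : Ideal R) (i : ℕ) :
    Layer m i →ₛₗ[((e : R ≃+* S) : R →+* S)] Layer (m.map ((e : R ≃+* S) : R →+* S)) i :=
  Submodule.liftQ (nextPow m i) (powMap e m i) (by
    intro x hx
    rw [LinearMap.mem_ker]
    exact (powMap_eq_zero e m i x).2 hx)

lemma layMap_bij (e : R ≃ₐ[ℂ] S) (m : Ideal R) (i : ℕ) : Function.Bijective (layMap e m i) := by
  constructor
  · rw [← LinearMap.ker_eq_bot, LinearMap.ker_eq_bot']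
    intro x hx
    obtain ⟨y, rfl⟩ := Submodule.Quotient.mk_surjective _ x
    have h : powMap e m i y = 0 := hx
    rw [Submodule.Quotient.mk_eq_zero]
    exact (powMap_eq_zero e m i y).1 h
  · intro z
    obtain ⟨⟨y, hy⟩, rfl⟩ := Submodule.Quotient.mk_surjective _ z
    have hy' : e (e.symm y) ∈ (m.map ((e : R ≃+* S) : R →+* S)) ^ i := by
      rw [e.apply_symm_apply]; exact hy
    have hx : e.symm y ∈ m ^ i := (mem_map_pow (e : R ≃+* S) m i (e.symm y)).1 hy'
    refine ⟨Submodule.Quotient.mk ⟨e.symm y, hx⟩, ?_⟩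
    show (Submodule.Quotient.mk _ : Layer (m.map ((e : R ≃+* S) : R →+* S)) i) = _
    congr 1
    apply Subtype.ext
    exact e.apply_symm_apply y

lemma grDim_map (e : R ≃ₐ[ℂ] S) (m : Ideal R) (i : ℕ) :
    grDim m i = grDim (m.map ((e : R ≃+* S) : R →+* S)) i := by
  let g : Layer m i →ₗ[ℂ] Layer (m.map ((e : R ≃+* S) : R →+* S)) i :=
    { toFun := layMap e m i
      map_add' := map_add (layMap e m i)
      map_smul' := by
        intro c x
        rw [← algebraMap_smul R c x, LinearMap.map_smulₛₗ]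
        show e (algebraMap ℂ R c) • layMap e m i x = c • layMap e m i x
        rw [AlgEquiv.commutes, algebraMap_smul] }
  exact (LinearEquiv.ofBijective g (layMap_bij e m i)).finrank_eq

lemma grDim_congr (e : R ≃ₐ[ℂ] S) (m : Ideal R) (m' : Ideal S)
    (h : m.map ((e : R ≃+* S) : R →+* S) = m') (i : ℕ) : grDim m i = grDim m' i := by
  subst h
  exact grDim_map e m i

end

end Pool.Agent.Y830.SC
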