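import Mathlib
import Pool.Agent.Y830.SC.Tr

/-!
# The local ring at the origin of a set in a coordinate subspace
-/

set_option autoImplicit false

open MvPolynomial

namespace Pool.Agent.Y830.SC

open Pool.Agent.W442.SV Pool.Agent.W442.SN

variable {σ τ : Type}

open Classical in
/-- extension of a point by zero -/
noncomputable def ext0 (emb : σ → τ) (x : σ → ℂ) (t : τ) : ℂ :=
  if h : ∃ s, emb s = t then x h.choose else 0

lemma ext0_emb {emb : σ → τ} (he : Function.Injective emb) (x : σ → ℂ) (s : σ) :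
    ext0 emb x (emb s) = x s := by
  have h : ∃ s', emb s' = emb s := ⟨s, rfl⟩
  rw [ext0, dif_pos h, he h.choose_spec]

lemma ext0_zero (emb : σ → τ) : ext0 emb (0 : σ → ℂ) = 0 := by
  funext t
  by_cases h : ∃ s, emb s = t
  · rw [ext0, dif_pos h]; rfl
  · rw [ext0, dif_neg h]; rfl

open Classical in
/-- setting the new variables to zero -/
noncomputable def phi (emb : σ → τ) : MvPolynomial τ ℂ →ₐ[ℂ] MvPolynomial σ ℂ :=
  aeval fun t => if h : ∃ s, emb s = t then X h.choose else 0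

lemma eval_phi (emb : σ → τ) (x : σ → ℂ) (f : MvPolynomial τ ℂ) :
    eval x (phi emb f) = eval (ext0 emb x) f := by
  have h : ((aeval x : MvPolynomial σ ℂ →ₐ[ℂ] ℂ).comp (phi emb)) = aeval (ext0 emb x) := by
    apply MvPolynomial.algHom_ext
    intro t
    rw [AlgHom.comp_apply, phi, aeval_X, aeval_X, ext0]
    by_cases h : ∃ s, emb s = t
    · rw [dif_pos h, dif_pos h, aeval_X]
    · rw [dif_neg h, dif_neg h, map_zero]
  exact DFunLike.congr_fun h f

lemma phi_rename {emb : σ → τ} (he : Function.Injective emb) (g : MvPolynomial σ ℂ) :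
    phi emb (rename emb g) = g := by
  have h : (phi emb).comp (rename emb) = AlgHom.id ℂ _ := by
    apply MvPolynomial.algHom_ext
    intro s
    rw [AlgHom.comp_apply, rename_X, phi, aeval_X]
    have h : ∃ s', emb s' = emb s := ⟨s, rfl⟩
    rw [dif_pos h, he h.choose_spec]
    rfl
  exact DFunLike.congr_fun h g

lemma phi_surjective {emb : σ → τ} (he : Function.Injective emb) :
    Function.Surjective (phi emb) := fun g => ⟨_, phi_rename he g⟩

lemma map_origin {emb : σ → τ} (he : Function.Injective emb) :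
    (originIdeal τ).map ((phi emb : MvPolynomial τ ℂ →ₐ[ℂ] MvPolynomial σ ℂ) :
      MvPolynomial τ ℂ →+* MvPolynomial σ ℂ) = originIdeal σ := by
  apply le_antisymm
  · rw [Ideal.map_le_iff_le_comap]
    intro f hf
    rw [Ideal.mem_comap]
    show eval (0 : σ → ℂ) (phi emb f) = 0
    rw [eval_phi, ext0_zero]
    exact hf
  · intro g hg
    rw [← phi_rename he g]
    apply Ideal.mem_map_of_mem ((phi emb : MvPolynomial τ ℂ →ₐ[ℂ] MvPolynomial σ ℂ) :
      MvPolynomial τ ℂ →+* MvPolynomial σ ℂ)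
    show eval (0 : τ → ℂ) (rename emb g) = 0
    rw [eval_rename]
    exact hg

section

variable (emb : σ → τ) (he : Function.Injective emb) (V : Set (σ → ℂ)) (V' : Set (τ → ℂ))
  (hV : V' = ext0 emb '' V)

include hV in
lemma mem_van (f : MvPolynomial τ ℂ) :
    f ∈ vanishingIdeal ℂ V' ↔ phi emb f ∈ vanishingIdeal ℂ V := by
  rw [mem_vanishingIdeal_iff, mem_vanishingIdeal_iff, hV]
  constructor
  · intro h x hx
    show eval x (phi emb f) = 0
    rw [eval_phi]
    exact h _ ⟨x, hx, rfl⟩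
  · rintro h _ ⟨x, hx, rfl⟩
    show eval (ext0 emb x) f = 0
    rw [← eval_phi]
    exact h _ hx

include he hV in
/-- Adding coordinates that vanish does not change the local ring at the origin. -/
theorem loc_equiv : ∃ E : Loc (vanishingIdeal ℂ V') ≃ₐ[ℂ] Loc (vanishingIdeal ℂ V),
    (locMax (vanishingIdeal ℂ V')).map ((E : Loc (vanishingIdeal ℂ V') ≃+*
      Loc (vanishingIdeal ℂ V)) : Loc (vanishingIdeal ℂ V') →+* Loc (vanishingIdeal ℂ V)) =
      locMax (vanishingIdeal ℂ V) := by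
  set I := vanishingIdeal ℂ V with hI
  set I' := vanishingIdeal ℂ V' with hI'
  let f : MvPolynomial τ ℂ →ₐ[ℂ] (MvPolynomial σ ℂ ⧸ I) := (Ideal.Quotient.mkₐ ℂ I).comp (phi emb)
  have hker : I' = RingHom.ker f := by
    ext g
    rw [RingHom.mem_ker]
    show g ∈ I' ↔ Ideal.Quotient.mk I (phi emb g) = 0
    rw [Ideal.Quotient.eq_zero_iff_mem]
    exact mem_van emb V V' hV g
  have hsurj : Function.Surjective f :=
    (Ideal.Quotient.mkₐ_surjective ℂ I).comp (phi_surjective he)
  let q : (MvPolynomial τ ℂ ⧸ I') ≃ₐ[ℂ] (MvPolynomial σ ℂ ⧸ I) :=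
    (Ideal.quotientEquivAlgOfEq ℂ hker).trans (Ideal.quotientKerAlgEquivOfSurjective hsurj)
  have hq : ∀ g, q (Ideal.Quotient.mk I' g) = Ideal.Quotient.mk I (phi emb g) := fun g => rfl
  have H : Submonoid.map q ((originIdeal τ).primeCompl.map (Ideal.Quotient.mk I')) =
      (originIdeal σ).primeCompl.map (Ideal.Quotient.mk I) := by
    ext x
    constructor
    · rintro ⟨y, ⟨g, hg, rfl⟩, rfl⟩
      refine ⟨phi emb g, ?_, (hq g).symm⟩
      show ¬ (eval (0 : σ → ℂ) (phi emb g) = 0)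
      rw [eval_phi, ext0_zero]
      exact hg
    · rintro ⟨g, hg, rfl⟩
      refine ⟨Ideal.Quotient.mk I' (rename emb g), ⟨rename emb g, ?_, rfl⟩, ?_⟩
      · show ¬ (eval (0 : τ → ℂ) (rename emb g) = 0)
        rw [eval_rename]
        exact hg
      · show q (Ideal.Quotient.mk I' (rename emb g)) = _
        rw [hq, phi_rename he]
  refine ⟨IsLocalization.algEquivOfAlgEquiv (Loc I') (Loc I) q H, ?_⟩
  rw [locMax, locMax, Ideal.map_map]
  have hc : (((IsLocalization.algEquivOfAlgEquiv (Loc I') (Loc I) q H : Loc I' ≃ₐ[ℂ] Loc I) :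
      Loc I' ≃+* Loc I) : Loc I' →+* Loc I).comp
      ((algebraMap (MvPolynomial τ ℂ ⧸ I') (Loc I')).comp (Ideal.Quotient.mk I')) =
      ((algebraMap (MvPolynomial σ ℂ ⧸ I) (Loc I)).comp (Ideal.Quotient.mk I)).comp
        ((phi emb : MvPolynomial τ ℂ →ₐ[ℂ] MvPolynomial σ ℂ) :
          MvPolynomial τ ℂ →+* MvPolynomial σ ℂ) := by
    refine RingHom.ext fun g => ?_
    show IsLocalization.algEquivOfAlgEquiv (Loc I') (Loc I) q H
      (algebraMap (MvPolynomial τ ℂ ⧸ I') (Loc I') (Ideal.Quotient.mk I' g)) = _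
    rw [IsLocalization.algEquivOfAlgEquiv_eq]
    rfl
  rw [hc, ← Ideal.map_map, map_origin he]

include he hV in
theorem loc_grDim (i : ℕ) : grDim (R := Loc (vanishingIdeal ℂ V')) (locMax (vanishingIdeal ℂ V')) i =
    grDim (R := Loc (vanishingIdeal ℂ V)) (locMax (vanishingIdeal ℂ V)) i := by
  obtain ⟨E, hE⟩ := loc_equiv emb he V V' hV
  exact grDim_congr E _ _ hE i

include he hV in
theorem loc_isCM : IsCM (GrRing (R := Loc (vanishingIdeal ℂ V')) (locMax (vanishingIdeal ℂ V'))) ↔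
    IsCM (GrRing (R := Loc (vanishingIdeal ℂ V)) (locMax (vanishingIdeal ℂ V))) := by
  obtain ⟨E, hE⟩ := loc_equiv emb he V V' hV
  exact isCM_congr (E : Loc (vanishingIdeal ℂ V') ≃+* Loc (vanishingIdeal ℂ V)) _ _ hE

end

theorem hilb_eq {n : ℕ} (v w : Equiv.Perm (Fin n)) (i : ℕ) : hilb v w i =
    grDim (R := Loc (vanishingIdeal ℂ (patch v w))) (locMax (vanishingIdeal ℂ (patch v w))) i := rfl

end Pool.Agent.Y830.SC
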