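import Mathlib
import Pool.Agent.W442.SV.Data
import Pool.Agent.Y830.SC.Loc

/-!
# Schubert varieties of `w` and of `w ⊕ 1`
-/

set_option autoImplicit false

open MvPolynomial

namespace Pool.Agent.Y830.SC

open Pool.Agent.W442.SV Pool.Agent.W442.SN

/-- The permutation `w ⊕ 1` of `n + 1` points: it fixes the last point. -/
def ext1 {n : ℕ} (w : Equiv.Perm (Fin n)) : Equiv.Perm (Fin (n + 1)) :=
  finSuccEquivLast.trans ((Equiv.optionCongr w).trans finSuccEquivLast.symm)

variable {n : ℕ}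

lemma ext1_castSucc (w : Equiv.Perm (Fin n)) (i : Fin n) : ext1 w i.castSucc = (w i).castSucc := by
  simp [ext1]

lemma ext1_last (w : Equiv.Perm (Fin n)) : ext1 w (Fin.last n) = Fin.last n := by
  simp [ext1]

lemma ext1_symm_castSucc (w : Equiv.Perm (Fin n)) (i : Fin n) :
    (ext1 w).symm i.castSucc = (w.symm i).castSucc := by
  rw [Equiv.symm_apply_eq, ext1_castSucc, Equiv.apply_symm_apply]

lemma ext1_symm_last (w : Equiv.Perm (Fin n)) : (ext1 w).symm (Fin.last n) = Fin.last n := by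
  rw [Equiv.symm_apply_eq, ext1_last]

/-- the upper left block -/
def tl (g : Matrix (Fin (n + 1)) (Fin (n + 1)) ℂ) : Matrix (Fin n) (Fin n) ℂ :=
  g.submatrix Fin.castSucc Fin.castSucc

/-- the last row vanishes off the diagonal -/
def LZ (g : Matrix (Fin (n + 1)) (Fin (n + 1)) ℂ) : Prop := ∀ j : Fin n, g (Fin.last n) j.castSucc = 0

/-- the block sum with `1` -/
def bs (g : Matrix (Fin n) (Fin n) ℂ) : Matrix (Fin (n + 1)) (Fin (n + 1)) ℂ :=
  Matrix.of fun i j => Fin.lastCases (motive := fun _ => ℂ)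
    (Fin.lastCases (motive := fun _ => ℂ) 1 (fun _ => 0) j)
    (fun i' => Fin.lastCases (motive := fun _ => ℂ) 0 (fun j' => g i' j') j) i

@[simp] lemma bs_cc (g : Matrix (Fin n) (Fin n) ℂ) (i j : Fin n) :
    bs g i.castSucc j.castSucc = g i j := by simp [bs]
@[simp] lemma bs_cl (g : Matrix (Fin n) (Fin n) ℂ) (i : Fin n) :
    bs g i.castSucc (Fin.last n) = 0 := by simp [bs]
@[simp] lemma bs_lc (g : Matrix (Fin n) (Fin n) ℂ) (j : Fin n) :
    bs g (Fin.last n) j.castSucc = 0 := by simp [bs]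
@[simp] lemma bs_ll (g : Matrix (Fin n) (Fin n) ℂ) :
    bs g (Fin.last n) (Fin.last n) = 1 := by simp [bs]

lemma mat_ext {A B : Matrix (Fin (n + 1)) (Fin (n + 1)) ℂ}
    (h1 : ∀ i j : Fin n, A i.castSucc j.castSucc = B i.castSucc j.castSucc)
    (h2 : ∀ i : Fin n, A i.castSucc (Fin.last n) = B i.castSucc (Fin.last n))
    (h3 : ∀ j : Fin n, A (Fin.last n) j.castSucc = B (Fin.last n) j.castSucc)
    (h4 : A (Fin.last n) (Fin.last n) = B (Fin.last n) (Fin.last n)) : A = B := by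
  ext i j
  induction i using Fin.lastCases with
  | last =>
    induction j using Fin.lastCases with
    | last => exact h4
    | cast j => exact h3 j
  | cast i =>
    induction j using Fin.lastCases with
    | last => exact h2 i
    | cast j => exact h1 i j

lemma bs_mul (A B : Matrix (Fin n) (Fin n) ℂ) : bs A * bs B = bs (A * B) := by
  apply mat_ext
  · intro i j
    rw [Matrix.mul_apply, Fin.sum_univ_castSucc]
    simp [Matrix.mul_apply]
  · intro i
    rw [Matrix.mul_apply, Fin.sum_univ_castSucc]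
    simp
  · intro j
    rw [Matrix.mul_apply, Fin.sum_univ_castSucc]
    simp
  · rw [Matrix.mul_apply, Fin.sum_univ_castSucc]
    simp

lemma LZ_mul {A B : Matrix (Fin (n + 1)) (Fin (n + 1)) ℂ} (hA : LZ A) (hB : LZ B) :
    LZ (A * B) := by
  intro j
  rw [Matrix.mul_apply, Fin.sum_univ_castSucc, hB j, mul_zero, add_zero]
  apply Finset.sum_eq_zero
  intro k _
  rw [hA k, zero_mul]

lemma tl_mul {A B : Matrix (Fin (n + 1)) (Fin (n + 1)) ℂ} (hB : LZ B) :
    tl (A * B) = tl A * tl B := by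
  ext i j
  show (A * B) i.castSucc j.castSucc = _
  rw [Matrix.mul_apply, Fin.sum_univ_castSucc, hB j, mul_zero, add_zero, Matrix.mul_apply]
  rfl

lemma permMat_ext1 (w : Equiv.Perm (Fin n)) : permMat (ext1 w) = bs (permMat w) := by
  apply mat_ext
  · intro i j
    simp only [permMat, Matrix.of_apply, ext1_castSucc, bs_cc, Fin.castSucc_inj]
  · intro i
    simp only [permMat, Matrix.of_apply, ext1_last, bs_cl]
    rw [if_neg (Fin.castSucc_ne_last i)]
  · intro j
    simp only [permMat, Matrix.of_apply, ext1_castSucc, bs_lc]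
    rw [if_neg (Fin.castSucc_ne_last _).symm]
  · simp only [permMat, Matrix.of_apply, ext1_last, bs_ll, if_true]

lemma det_upper {m : ℕ} {b : Matrix (Fin m) (Fin m) ℂ} (h : ∀ i j, j < i → b i j = 0) :
    b.det = ∏ i, b i i := by
  apply Matrix.det_of_isUpperTriangular
  intro i j hij
  exact h i j hij

lemma borel_LZ {b : Matrix (Fin (n + 1)) (Fin (n + 1)) ℂ} (hb : b ∈ borel (n + 1)) : LZ b :=
  fun j => hb.2 _ _ (Fin.castSucc_lt_last j)

lemma borel_tl {b : Matrix (Fin (n + 1)) (Fin (n + 1)) ℂ} (hb : b ∈ borel (n + 1)) :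
    tl b ∈ borel n := by
  obtain ⟨h1, h2⟩ := hb
  have h3 : ∀ i j, j < i → tl b i j = 0 := fun i j hij => h2 _ _ (by
    rw [Fin.castSucc_lt_castSucc_iff]; exact hij)
  refine ⟨?_, h3⟩
  rw [det_upper h3]
  rw [det_upper h2, Fin.prod_univ_castSucc] at h1
  exact isUnit_of_mul_isUnit_left h1

lemma borel_bs {b : Matrix (Fin n) (Fin n) ℂ} (hb : b ∈ borel n) : bs b ∈ borel (n + 1) := by
  obtain ⟨h1, h2⟩ := hb
  have h3 : ∀ i j, j < i → bs b i j = 0 := by
    intro i j hij
    induction i using Fin.lastCases with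
    | last =>
      induction j using Fin.lastCases with
      | last => exact absurd hij (lt_irrefl _)
      | cast j => exact bs_lc b j
    | cast i =>
      induction j using Fin.lastCases with
      | last => exact bs_cl b i
      | cast j =>
        rw [bs_cc]
        exact h2 i j (Fin.castSucc_lt_castSucc_iff.1 hij)
  refine ⟨?_, h3⟩
  rw [det_upper h3, Fin.prod_univ_castSucc]
  rw [det_upper h2] at h1
  simpa using h1

lemma doubleCoset_bs {w : Equiv.Perm (Fin n)} {h : Matrix (Fin n) (Fin n) ℂ}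
    (hh : h ∈ doubleCoset w) : bs h ∈ doubleCoset (ext1 w) := by
  obtain ⟨b, hb, b', hb', rfl⟩ := hh
  exact ⟨bs b, borel_bs hb, bs b', borel_bs hb', by rw [permMat_ext1, bs_mul, bs_mul]⟩

lemma LZ_bs (g : Matrix (Fin n) (Fin n) ℂ) : LZ (bs g) := fun j => bs_lc g j

lemma tl_bs (g : Matrix (Fin n) (Fin n) ℂ) : tl (bs g) = g := by
  ext i j
  exact bs_cc g i j

lemma doubleCoset_tl {w : Equiv.Perm (Fin n)} {h : Matrix (Fin (n + 1)) (Fin (n + 1)) ℂ}
    (hh : h ∈ doubleCoset (ext1 w)) : LZ h ∧ tl h ∈ doubleCoset w := by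
  obtain ⟨b, hb, b', hb', rfl⟩ := hh
  rw [permMat_ext1]
  refine ⟨LZ_mul (LZ_mul (borel_LZ hb) (LZ_bs _)) (borel_LZ hb'), ?_⟩
  rw [tl_mul (borel_LZ hb'), tl_mul (LZ_bs _), tl_bs]
  exact ⟨tl b, borel_tl hb, tl b', borel_tl hb', rfl⟩

lemma schubert_LZ {w : Equiv.Perm (Fin n)} {g : Matrix (Fin (n + 1)) (Fin (n + 1)) ℂ}
    (hg : g ∈ schubert (ext1 w)) : LZ g := by
  intro j
  have h := hg (X (Fin.last n, j.castSucc)) (by
    intro h hh
    rw [eval_X]
    exact (doubleCoset_tl hh).1 j)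
  rwa [eval_X] at h

lemma eval_tl (g : Matrix (Fin (n + 1)) (Fin (n + 1)) ℂ) (f : MvPolynomial (Fin n × Fin n) ℂ) :
    eval (fun p : Fin (n + 1) × Fin (n + 1) => g p.1 p.2)
      (rename (Prod.map Fin.castSucc Fin.castSucc) f) =
      eval (fun p : Fin n × Fin n => tl g p.1 p.2) f := by
  rw [eval_rename]
  have h : ((fun p : Fin (n + 1) × Fin (n + 1) => g p.1 p.2) ∘
      Prod.map Fin.castSucc Fin.castSucc) = fun p : Fin n × Fin n => tl g p.1 p.2 := by
    funext p
    rfl
  rw [h]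

lemma schubert_tl {w : Equiv.Perm (Fin n)} {g : Matrix (Fin (n + 1)) (Fin (n + 1)) ℂ}
    (hg : g ∈ schubert (ext1 w)) : tl g ∈ schubert w := by
  intro f hf
  rw [← eval_tl]
  apply hg
  intro h hh
  rw [eval_tl]
  exact hf _ (doubleCoset_tl hh).2

/-- the polynomials for the block sum -/
noncomputable def bsp (p : Fin (n + 1) × Fin (n + 1)) : MvPolynomial (Fin n × Fin n) ℂ :=
  Fin.lastCases (motive := fun _ => MvPolynomial (Fin n × Fin n) ℂ)
    (Fin.lastCases (motive := fun _ => MvPolynomial (Fin n × Fin n) ℂ) 1 (fun _ => 0) p.2)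
    (fun i' => Fin.lastCases (motive := fun _ => MvPolynomial (Fin n × Fin n) ℂ) 0
      (fun j' => X (i', j')) p.2) p.1

lemma eval_bsp (g : Matrix (Fin n) (Fin n) ℂ) (i j : Fin (n + 1)) :
    eval (fun p => g p.1 p.2) (bsp (i, j)) = bs g i j := by
  induction i using Fin.lastCases with
  | last =>
    induction j using Fin.lastCases with
    | last => simp [bsp]
    | cast j => simp [bsp]
  | cast i =>
    induction j using Fin.lastCases with
    | last => simp [bsp]
    | cast j => simp [bsp]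

lemma eval_aeval_bsp (g : Matrix (Fin n) (Fin n) ℂ)
    (f : MvPolynomial (Fin (n + 1) × Fin (n + 1)) ℂ) :
    eval (fun p => g p.1 p.2) (aeval (bsp (n := n)) f) = eval (fun p => bs g p.1 p.2) f := by
  have h : ((aeval (fun p : Fin n × Fin n => g p.1 p.2) :
      MvPolynomial (Fin n × Fin n) ℂ →ₐ[ℂ] ℂ).comp (aeval (bsp (n := n)))) =
      aeval (fun p : Fin (n + 1) × Fin (n + 1) => bs g p.1 p.2) := by
    apply MvPolynomial.algHom_ext
    rintro ⟨i, j⟩
    rw [AlgHom.comp_apply, aeval_X, aeval_X]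
    exact eval_bsp g i j
  exact DFunLike.congr_fun h f

lemma schubert_bs {w : Equiv.Perm (Fin n)} {g : Matrix (Fin n) (Fin n) ℂ}
    (hg : g ∈ schubert w) : bs g ∈ schubert (ext1 w) := by
  intro f hf
  rw [← eval_aeval_bsp]
  apply hg
  intro h hh
  rw [eval_aeval_bsp]
  exact hf _ (doubleCoset_bs hh)

/-- the old coordinates among the new ones -/
def embL (p : Low n) : Low (n + 1) :=
  ⟨(p.1.1.castSucc, p.1.2.castSucc), Fin.castSucc_lt_castSucc_iff.2 p.2⟩

lemma embL_injective : Function.Injective (embL (n := n)) := by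
  rintro ⟨⟨a, b⟩, h⟩ ⟨⟨a', b'⟩, h'⟩ e
  have e1 := congrArg (fun p : Low (n + 1) => p.1.1) e
  have e2 := congrArg (fun p : Low (n + 1) => p.1.2) e
  have e3 : a = a' := Fin.castSucc_injective n e1
  have e4 : b = b' := Fin.castSucc_injective n e2
  subst e3 e4
  rfl

lemma uni_castSucc (x : Low (n + 1) → ℂ) (i j : Fin n) :
    uni x i.castSucc j.castSucc = uni (fun p => x (embL p)) i j := by
  rcases lt_trichotomy i j with h | h | h
  · rw [uni_lt _ h, uni_lt _ (Fin.castSucc_lt_castSucc_iff.2 h)]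
  · subst h
    rw [uni_self, uni_self]
  · rw [uni_gt _ h, uni_gt _ (Fin.castSucc_lt_castSucc_iff.2 h)]
    rfl

lemma tl_chart (v : Equiv.Perm (Fin n)) (x : Low (n + 1) → ℂ) :
    tl (chart (ext1 v) x) = chart v (fun p => x (embL p)) := by
  ext i j
  show chart (ext1 v) x i.castSucc j.castSucc = _
  rw [chart_apply, chart_apply, ext1_symm_castSucc, uni_castSucc]

lemma LZ_chart (v : Equiv.Perm (Fin n)) (x : Low (n + 1) → ℂ) :
    LZ (chart (ext1 v) x) ↔ ∀ j : Fin n, x ⟨(Fin.last n, j.castSucc), Fin.castSucc_lt_last j⟩ = 0 := by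
  apply forall_congr'
  intro j
  rw [chart_apply, ext1_symm_last, uni_gt _ (Fin.castSucc_lt_last j)]

lemma chart_eq_bs (v : Equiv.Perm (Fin n)) (x : Low (n + 1) → ℂ) (h : LZ (chart (ext1 v) x)) :
    chart (ext1 v) x = bs (chart v (fun p => x (embL p))) := by
  apply mat_ext
  · intro i j
    rw [bs_cc, ← tl_chart]
    rfl
  · intro i
    rw [bs_cl, chart_apply, ext1_symm_castSucc, uni_lt _ (Fin.castSucc_lt_last _)]
  · intro j
    rw [bs_lc]
    exact h j
  · rw [bs_ll, chart_apply, ext1_symm_last, uni_self]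

lemma mem_patch_ext1 (v w : Equiv.Perm (Fin n)) (x : Low (n + 1) → ℂ) :
    x ∈ patch (ext1 v) (ext1 w) ↔
      (∀ j : Fin n, x ⟨(Fin.last n, j.castSucc), Fin.castSucc_lt_last j⟩ = 0) ∧
      (fun p => x (embL p)) ∈ patch v w := by
  constructor
  · intro h
    refine ⟨(LZ_chart v x).1 (schubert_LZ h), ?_⟩
    show chart v _ ∈ schubert w
    rw [← tl_chart]
    exact schubert_tl h
  · rintro ⟨h1, h2⟩
    show chart (ext1 v) x ∈ schubert (ext1 w)
    rw [chart_eq_bs v x ((LZ_chart v x).2 h1)]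
    exact schubert_bs h2

lemma not_emb {t : Low (n + 1)} (h : ¬ ∃ s : Low n, embL s = t) : t.1.1 = Fin.last n := by
  obtain ⟨⟨a, b⟩, hab⟩ := t
  by_contra ha
  apply h
  have hb : b ≠ Fin.last n := by
    rintro rfl
    exact absurd (show Fin.last n < a from hab) (not_lt.2 (Fin.le_last a))
  obtain ⟨a', rfl⟩ := Fin.exists_castSucc_eq.2 ha
  obtain ⟨b', rfl⟩ := Fin.exists_castSucc_eq.2 hb
  exact ⟨⟨(a', b'), Fin.castSucc_lt_castSucc_iff.1 hab⟩, rfl⟩

lemma not_emb_last (j : Fin n) :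
    ¬ ∃ s : Low n, embL s = ⟨(Fin.last n, j.castSucc), Fin.castSucc_lt_last j⟩ := by
  rintro ⟨s, hs⟩
  have e1 := congrArg (fun p : Low (n + 1) => p.1.1) hs
  exact Fin.castSucc_ne_last _ e1

/-- The patch of `w ⊕ 1` at `v ⊕ 1` is the patch of `w` at `v`, extended by zero. -/
lemma patch_ext1 (v w : Equiv.Perm (Fin n)) :
    patch (ext1 v) (ext1 w) = ext0 embL '' patch v w := by
  ext x
  rw [mem_patch_ext1]
  constructor
  · rintro ⟨h1, h2⟩
    refine ⟨_, h2, ?_⟩
    funext t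
    by_cases h : ∃ s : Low n, embL s = t
    · obtain ⟨s, rfl⟩ := h
      rw [ext0_emb embL_injective]
    · rw [ext0, dif_neg h]
      obtain ⟨⟨a, b⟩, hab⟩ := t
      have ha : a = Fin.last n := not_emb h
      subst ha
      have hb : b ≠ Fin.last n := by
        rintro rfl
        exact absurd hab (lt_irrefl _)
      obtain ⟨b', rfl⟩ := Fin.exists_castSucc_eq.2 hb
      exact (h1 b').symm
  · rintro ⟨y, hy, rfl⟩
    refine ⟨?_, ?_⟩
    · intro j
      rw [ext0, dif_neg (not_emb_last j)]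
    · have : (fun p => ext0 embL y (embL p)) = y := by
        funext p
        exact ext0_emb embL_injective y p
      rw [this]
      exact hy

theorem hilb_ext1 (v w : Equiv.Perm (Fin n)) (i : ℕ) : hilb (ext1 v) (ext1 w) i = hilb v w i := by
  rw [hilb_eq, hilb_eq]
  exact loc_grDim embL embL_injective _ _ (patch_ext1 v w) i

theorem isCM_ext1 (v w : Equiv.Perm (Fin n)) :
    IsCM (GrRing (R := LocalRing (ext1 v) (ext1 w)) (mx (ext1 v) (ext1 w))) ↔
      IsCM (GrRing (R := LocalRing v w) (mx v w)) := by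
  have h := loc_isCM embL embL_injective _ _ (patch_ext1 v w)
  exact h

theorem len_ext1 (w : Equiv.Perm (Fin n)) : len (ext1 w) = len w := by
  unfold len
  symm
  apply Finset.card_bij (fun p _ => (p.1.castSucc, p.2.castSucc))
  · rintro ⟨a, b⟩ h
    rw [Finset.mem_filter] at h ⊢
    refine ⟨Finset.mem_univ _, Fin.castSucc_lt_castSucc_iff.2 h.2.1, ?_⟩
    show ext1 w b.castSucc < ext1 w a.castSucc
    rw [ext1_castSucc, ext1_castSucc]
    exact Fin.castSucc_lt_castSucc_iff.2 h.2.2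
  · rintro ⟨a, b⟩ _ ⟨a', b'⟩ _ e
    rw [Prod.mk.injEq] at e
    exact Prod.ext (Fin.castSucc_injective n e.1) (Fin.castSucc_injective n e.2)
  · rintro ⟨a, b⟩ h
    rw [Finset.mem_filter] at h
    obtain ⟨-, h1, h2⟩ := h
    have hb : b ≠ Fin.last n := by
      rintro rfl
      rw [ext1_last] at h2
      exact absurd h2 (not_lt.2 (Fin.le_last _))
    have ha : a ≠ Fin.last n := by
      rintro rfl
      exact absurd h1 (not_lt.2 (Fin.le_last _))
    obtain ⟨a', rfl⟩ := Fin.exists_castSucc_eq.2 ha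
    obtain ⟨b', rfl⟩ := Fin.exists_castSucc_eq.2 hb
    refine ⟨(a', b'), ?_, rfl⟩
    rw [Finset.mem_filter]
    refine ⟨Finset.mem_univ _, Fin.castSucc_lt_castSucc_iff.1 h1, ?_⟩
    rw [ext1_castSucc, ext1_castSucc] at h2
    exact Fin.castSucc_lt_castSucc_iff.1 h2

theorem hcoeff_ext1 (v w : Equiv.Perm (Fin n)) (i : ℕ) :
    hcoeff (ext1 v) (ext1 w) i = hcoeff v w i := by
  unfold hcoeff
  rw [len_ext1]
  have h : (fun j => (hilb (ext1 v) (ext1 w) j : ℤ)) = fun j => (hilb v w j : ℤ) := by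
    funext j
    rw [hilb_ext1]
  rw [h]

lemma ext1_mul_swap (v : Equiv.Perm (Fin n)) (i j : Fin n) :
    ext1 (v * Equiv.swap i j) = ext1 v * Equiv.swap i.castSucc j.castSucc := by
  ext k
  congr 1
  induction k using Fin.lastCases with
  | last =>
    rw [ext1_last, Equiv.Perm.mul_apply,
      Equiv.swap_apply_of_ne_of_ne (Fin.castSucc_ne_last i).symm (Fin.castSucc_ne_last j).symm,
      ext1_last]
  | cast k =>
    rw [ext1_castSucc, Equiv.Perm.mul_apply, Equiv.Perm.mul_apply,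
      (Fin.castSucc_injective n).swap_apply, ext1_castSucc]

theorem bruhat_ext1 {v w : Equiv.Perm (Fin n)} (h : BruhatLE v w) :
    BruhatLE (ext1 v) (ext1 w) := by
  refine Relation.ReflTransGen.lift ext1 ?_ _ _ h
  rintro a b ⟨i, j, hij, hv, rfl⟩
  refine ⟨i.castSucc, j.castSucc, Fin.castSucc_lt_castSucc_iff.2 hij, ?_, ext1_mul_swap a i j⟩
  rw [ext1_castSucc, ext1_castSucc]
  exact Fin.castSucc_lt_castSucc_iff.2 hv

/-- A property of pairs that is stable under `(v, w) ↦ (v ⊕ 1, w ⊕ 1)` and holds for a pair in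
`S_m` holds for a pair in `S_n`, for every `n ≥ m`. -/
theorem all_large (P : ∀ n : ℕ, Equiv.Perm (Fin n) → Equiv.Perm (Fin n) → Prop)
    (hP : ∀ (n : ℕ) (v w : Equiv.Perm (Fin n)), P n v w → P (n + 1) (ext1 v) (ext1 w))
    (m : ℕ) (h : ∃ v w : Equiv.Perm (Fin m), BruhatLE v w ∧ P m v w) :
    ∀ n, m ≤ n → ∃ v w : Equiv.Perm (Fin n), BruhatLE v w ∧ P n v w := by
  intro n hn
  induction n, hn using Nat.le_induction with
  | base => exact h
  | succ n _ ih =>
    obtain ⟨v, w, h1, h2⟩ := ih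
    exact ⟨ext1 v, ext1 w, bruhat_ext1 h1, hP n v w h2⟩

end Pool.Agent.Y830.SC
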